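import Mathlib

/-!
# The Berge extremal function of `1₁ × C₄` has order at least `m ^ (5/2)`

The columns of weight three `{x, y, z}` with `x + y + z` in a Sidon set (in three disjoint copies of
the group `(ℤ/p)²`) have no Berge copy of `1₁ × C₄`.
-/

set_option autoImplicit false

namespace Pool.Agent.Results.MP_4da166_co.ConeOverC4

open Filter Topology Asymptotics

/-- The `5 × 4` matrix `F = 1₁ × C₄`. -/
def coneC4 : Matrix (Fin 5) (Fin 4) Bool :=
  !![true, true, true, true;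
     true, true, false, false;
     false, false, true, true;
     true, false, true, false;
     false, true, false, true]

/-- `F ≪ A`: some submatrix `B` of `A` of the size of `F` (rows and columns of `A` selected by
increasing maps `r`, `c`) is entrywise at least `G`, where `G` arises from `F` by permuting its
rows and columns. -/
def Berge {k l m n : ℕ} (F : Matrix (Fin k) (Fin l) Bool) (A : Matrix (Fin m) (Fin n) Bool) :
    Prop :=
  ∃ (r : Fin k ↪o Fin m) (c : Fin l ↪o Fin n) (σ : Equiv.Perm (Fin k)) (τ : Equiv.Perm (Fin l)),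
    ∀ i j, F.submatrix σ τ i j ≤ A.submatrix r c i j

/-- A matrix is simple if it has no two equal columns. -/
def IsSimple {m n : ℕ} (A : Matrix (Fin m) (Fin n) Bool) : Prop :=
  ∀ j j' : Fin n, (∀ i, A i j = A i j') → j = j'

/-- `Bh(m, F)`: the largest number of columns of an `m`-rowed simple matrix `A` with `F ≪ A`
false. -/
noncomputable def Bh {k l : ℕ} (m : ℕ) (F : Matrix (Fin k) (Fin l) Bool) : ℕ :=
  sSup {n : ℕ | ∃ A : Matrix (Fin m) (Fin n) Bool, IsSimple A ∧ ¬ Berge F A}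

theorem bddAbove {k l : ℕ} (m : ℕ) (F : Matrix (Fin k) (Fin l) Bool) :
    BddAbove {n : ℕ | ∃ A : Matrix (Fin m) (Fin n) Bool, IsSimple A ∧ ¬ Berge F A} := by
  refine ⟨2 ^ m, ?_⟩
  rintro n ⟨A, hA, -⟩
  have h : Function.Injective (fun j : Fin n => fun i : Fin m => A i j) := by
    intro j j' hj
    exact hA j j' (fun i => congrFun hj i)
  have h2 := Fintype.card_le_of_injective _ h
  simpa using h2

section construction

variable {p : ℕ} [Fact p.Prime]

/-- The Sidon set. -/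
def sid (t : ZMod p) : ZMod p × ZMod p := (t, t ^ 2)

theorem sid_sidon (hp : 2 < p) {a b c d : ZMod p} (h : sid a - sid b = sid c - sid d) :
    a = b ∨ a = c := by
  simp only [sid, Prod.mk_sub_mk, Prod.mk.injEq] at h
  obtain ⟨h1, h2⟩ := h
  by_cases hab : a = b
  · exact Or.inl hab
  · right
    have h3 : (a - b) * (a + b) = (a - b) * (c + d) := by
      have e1 : (a - b) * (a + b) = a ^ 2 - b ^ 2 := by ring
      have e2 : (a - b) * (c + d) = c ^ 2 - d ^ 2 := by rw [h1]; ring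
      rw [e1, e2, h2]
    have h4 : a + b = c + d := mul_left_cancel₀ (sub_ne_zero.2 hab) h3
    have h5 : (2 : ZMod p) * a = 2 * c := by
      have : (2 : ZMod p) * a = (a - b) + (a + b) := by ring
      rw [this, h1, h4]; ring
    have h6 : (2 : ZMod p) ≠ 0 := by
      intro h7
      have h8 : ((2 : ℕ) : ZMod p) = 0 := by exact_mod_cast h7
      rw [ZMod.natCast_eq_zero_iff] at h8
      have := Nat.le_of_dvd (by norm_num) h8
      omega
    exact mul_left_cancel₀ h6 h5

/-- The three elements of a column. -/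
def vec (c : (ZMod p × ZMod p) × (ZMod p × ZMod p) × ZMod p) : Fin 3 → ZMod p × ZMod p :=
  ![c.1, c.2.1, sid c.2.2 - c.1 - c.2.1]

theorem vec_sum (c : (ZMod p × ZMod p) × (ZMod p × ZMod p) × ZMod p) {i j k : Fin 3}
    (hij : i ≠ j) (hik : i ≠ k) (hjk : j ≠ k) : vec c i + vec c j + vec c k = sid c.2.2 := by
  have h : vec c 0 + vec c 1 + vec c 2 = sid c.2.2 := by
    simp [vec]
  fin_cases i <;> fin_cases j <;> fin_cases k <;>
    first
      | exact absurd rfl hij
      | exact absurd rfl hik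
      | exact absurd rfl hjk
      | (rw [← h]; simp only [Fin.isValue, Fin.zero_eta, Fin.mk_one, Fin.reduceFinMk]; try abel)

theorem vec_inj {c c' : (ZMod p × ZMod p) × (ZMod p × ZMod p) × ZMod p} (h : vec c = vec c') :
    c = c' := by
  have h0 := congrFun h 0
  have h1 := congrFun h 1
  have h2 := congrFun h 2
  simp only [vec, Matrix.cons_val_zero, Matrix.cons_val_one, Matrix.cons_val] at h0 h1 h2
  rw [h0, h1] at h2
  have h3 : sid c.2.2 = sid c'.2.2 := by
    have := congrArg (fun z => z + c'.2.1 + c'.1) h2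
    simpa [sub_add_cancel, add_assoc, sub_sub] using this
  have h4 : c.2.2 = c'.2.2 := congrArg Prod.fst h3
  exact Prod.ext h0 (Prod.ext h1 h4)

theorem exists_matrix (hp : 2 < p) (m : ℕ) (hm : 3 * p ^ 2 ≤ m) :
    ∃ A : Matrix (Fin m) (Fin (p ^ 5)) Bool, IsSimple A ∧ ¬ Berge coneC4 A := by
  classical
  have hcR : Fintype.card (Fin 3 × (ZMod p × ZMod p)) ≤ Fintype.card (Fin m) := by
    simp only [Fintype.card_prod, Fintype.card_fin, ZMod.card]
    calc 3 * (p * p) = 3 * p ^ 2 := by ring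
      _ ≤ m := hm
  obtain ⟨e⟩ := Function.Embedding.nonempty_of_card_le hcR
  have hcC : Fintype.card (Fin (p ^ 5))
      = Fintype.card ((ZMod p × ZMod p) × (ZMod p × ZMod p) × ZMod p) := by
    simp only [Fintype.card_prod, Fintype.card_fin, ZMod.card]
    ring
  let φ := Fintype.equivOfCardEq hcC
  let A : Matrix (Fin m) (Fin (p ^ 5)) Bool := fun i j =>
    decide (∃ q : Fin 3, e (q, vec (φ j) q) = i)
  have hA : ∀ i j, A i j = true ↔ ∃ q : Fin 3, e (q, vec (φ j) q) = i := fun i j => by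
    simp [A]
  refine ⟨A, ?_, ?_⟩
  · intro j j' h
    have h1 : vec (φ j) = vec (φ j') := by
      funext q
      have h2 : A (e (q, vec (φ j) q)) j = true := (hA _ _).2 ⟨q, rfl⟩
      rw [h] at h2
      obtain ⟨q', hq'⟩ := (hA _ _).1 h2
      have h3 := e.injective hq'
      rw [Prod.mk.injEq] at h3
      obtain ⟨rfl, h4⟩ := h3
      exact h4.symm
    exact φ.injective (vec_inj h1)
  · rintro ⟨r, c, σ, τ, h⟩
    -- rows and columns of the copy
    let R : Fin 5 → Fin m := fun i => r (σ.symm i)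
    let C : Fin 4 → Fin (p ^ 5) := fun j => c (τ.symm j)
    have hR : Function.Injective R := fun i i' hii => σ.symm.injective (r.injective hii)
    have hin : ∀ i j, coneC4 i j = true → ∃ q : Fin 3, e (q, vec (φ (C j)) q) = R i := by
      intro i j hij
      have h1 := h (σ.symm i) (τ.symm j)
      simp only [Matrix.submatrix_apply, Equiv.apply_symm_apply, hij] at h1
      exact (hA _ _).1 (top_le_iff.1 h1)
    obtain ⟨a0, ha0⟩ := hin 0 0 rfl
    obtain ⟨a1, ha1⟩ := hin 1 0 rfl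
    obtain ⟨a3, ha3⟩ := hin 3 0 rfl
    obtain ⟨b0, hb0⟩ := hin 0 1 rfl
    obtain ⟨b1, hb1⟩ := hin 1 1 rfl
    obtain ⟨b4, hb4⟩ := hin 4 1 rfl
    obtain ⟨c0, hc0⟩ := hin 0 2 rfl
    obtain ⟨c2, hc2⟩ := hin 2 2 rfl
    obtain ⟨c3, hc3⟩ := hin 3 2 rfl
    obtain ⟨d0, hd0⟩ := hin 0 3 rfl
    obtain ⟨d2, hd2⟩ := hin 2 3 rfl
    obtain ⟨d4, hd4⟩ := hin 4 3 rfl
    -- consistency of the parts and of the group elements
    have k0b := e.injective (ha0.trans hb0.symm)
    have k0c := e.injective (ha0.trans hc0.symm)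
    have k0d := e.injective (ha0.trans hd0.symm)
    have k1b := e.injective (ha1.trans hb1.symm)
    have k2d := e.injective (hc2.trans hd2.symm)
    have k3c := e.injective (ha3.trans hc3.symm)
    have k4d := e.injective (hb4.trans hd4.symm)
    rw [Prod.mk.injEq] at k0b k0c k0d k1b k2d k3c k4d
    obtain ⟨rfl, k0b⟩ := k0b
    obtain ⟨rfl, k0c⟩ := k0c
    obtain ⟨rfl, k0d⟩ := k0d
    obtain ⟨rfl, k1b⟩ := k1b
    obtain ⟨rfl, k2d⟩ := k2d
    obtain ⟨rfl, k3c⟩ := k3c
    obtain ⟨rfl, k4d⟩ := k4d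
    have hne : ∀ {j : Fin (p ^ 5)} {q q' : Fin 3} {i i' : Fin 5}, i ≠ i' →
        e (q, vec (φ j) q) = R i → e (q', vec (φ j) q') = R i' → q ≠ q' := by
      rintro j q q' i i' hii h1 h2 rfl
      exact hii (hR (h1.symm.trans h2))
    have n01 : a0 ≠ a1 := hne (by decide) ha0 ha1
    have n03 : a0 ≠ a3 := hne (by decide) ha0 ha3
    have n13 : a1 ≠ a3 := hne (by decide) ha1 ha3
    have n04 : a0 ≠ b4 := hne (by decide) hb0 hb4
    have n14 : a1 ≠ b4 := hne (by decide) hb1 hb4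
    have n02 : a0 ≠ c2 := hne (by decide) hc0 hc2
    have n23 : c2 ≠ a3 := hne (by decide) hc2 hc3
    have n24 : c2 ≠ b4 := hne (by decide) hd2 hd4
    have s0 := vec_sum (φ (C 0)) n01 n03 n13
    have s1 := vec_sum (φ (C 1)) n01 n04 n14
    have s2 := vec_sum (φ (C 2)) n02 n03 n23
    have s3 := vec_sum (φ (C 3)) n02 n04 n24
    rw [← k0b, ← k1b] at s1
    rw [← k0c, ← k3c] at s2
    rw [← k0d, ← k2d, ← k4d] at s3
    have hdiff : sid (φ (C 0)).2.2 - sid (φ (C 1)).2.2
        = sid (φ (C 2)).2.2 - sid (φ (C 3)).2.2 := by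
      rw [← s0, ← s1, ← s2, ← s3]; abel
    -- the parts of rows 3 and 4 agree, and those of rows 1 and 2 agree
    have p34 : a3 = b4 := by
      revert n01 n03 n13 n04 n14
      generalize a0 = x, a1 = y, a3 = z, b4 = w
      revert x y z w
      decide
    have p12 : a1 = c2 := by
      revert n01 n03 n13 n02 n23
      generalize a0 = x, a1 = y, a3 = z, c2 = w
      revert x y z w
      decide
    rcases sid_sidon hp hdiff with h1 | h1
    · have h2 : vec (φ (C 0)) a3 = vec (φ (C 1)) b4 := by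
        rw [h1, ← s1] at s0
        exact add_left_cancel s0
      have h3 : R 3 = R 4 := by
        rw [← ha3, ← hb4, h2, p34]
      exact absurd (hR h3) (by decide)
    · have h2 : vec (φ (C 0)) a1 = vec (φ (C 2)) c2 := by
        rw [h1, ← s2] at s0
        exact add_left_cancel (add_right_cancel s0)
      have h3 : R 1 = R 2 := by
        rw [← ha1, ← hc2, h2, p12]
      exact absurd (hR h3) (by decide)

end construction

theorem lower (m : ℕ) (hm : 48 ≤ m) : (m : ℝ) ^ ((5 : ℝ) / 2) / 500 ≤ (Bh m coneC4 : ℝ) := by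
  set k : ℕ := Nat.sqrt (m / 3) with hk
  have hk4 : 4 ≤ k := by
    rw [hk, Nat.le_sqrt]
    omega
  obtain ⟨p, hpp, hp1, hp2⟩ := Nat.exists_prime_lt_and_le_two_mul (k / 2) (by omega)
  have : Fact p.Prime := ⟨hpp⟩
  have hpk : p ≤ k := by omega
  have hkp : k + 1 ≤ 2 * p := by omega
  have hm3 : 3 * p ^ 2 ≤ m := by
    have h1 : k * k ≤ m / 3 := Nat.sqrt_le _
    have h2 : p * p ≤ k * k := Nat.mul_le_mul hpk hpk
    have h3 : 3 * (m / 3) ≤ m := Nat.mul_div_le m 3
    calc 3 * p ^ 2 = 3 * (p * p) := by ring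
      _ ≤ 3 * (m / 3) := Nat.mul_le_mul_left _ (h2.trans h1)
      _ ≤ m := h3
  have hB : p ^ 5 ≤ Bh m coneC4 :=
    le_csSup (bddAbove m coneC4) (exists_matrix (by omega) m hm3)
  have hmp : (m : ℝ) ≤ 12 * (p : ℝ) ^ 2 := by
    have h1 : m / 3 < (k + 1) * (k + 1) := Nat.lt_succ_sqrt _
    have h2 : m < 3 * ((k + 1) * (k + 1)) := by
      have := Nat.div_lt_iff_lt_mul (by norm_num : 0 < 3) (x := m) (y := (k + 1) * (k + 1))
      have h3 := this.1 h1
      omega
    have h4 : (k + 1) * (k + 1) ≤ (2 * p) * (2 * p) := Nat.mul_le_mul hkp hkp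
    have h5 : m ≤ 12 * p ^ 2 := by nlinarith
    exact_mod_cast h5
  have hp0 : (0 : ℝ) ≤ p := Nat.cast_nonneg p
  have h1 : (m : ℝ) ^ ((5 : ℝ) / 2) ≤ (12 * (p : ℝ) ^ 2) ^ ((5 : ℝ) / 2) :=
    Real.rpow_le_rpow (Nat.cast_nonneg m) hmp (by norm_num)
  have h2 : (12 * (p : ℝ) ^ 2) ^ ((5 : ℝ) / 2) = (12 : ℝ) ^ ((5 : ℝ) / 2) * (p : ℝ) ^ 5 := by
    rw [Real.mul_rpow (by norm_num) (by positivity)]
    congr 1
    rw [← Real.rpow_natCast (p : ℝ) 2, ← Real.rpow_mul hp0, ← Real.rpow_natCast]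
    norm_num
  have h3 : (12 : ℝ) ^ ((5 : ℝ) / 2) ≤ 500 := by
    have h4 : ((12 : ℝ) ^ ((5 : ℝ) / 2)) ^ 2 ≤ 500 ^ 2 := by
      rw [← Real.rpow_natCast ((12 : ℝ) ^ ((5 : ℝ) / 2)) 2, ← Real.rpow_mul (by norm_num)]
      norm_num
    exact le_of_sq_le_sq h4 (by norm_num)
  have h5 : (m : ℝ) ^ ((5 : ℝ) / 2) ≤ 500 * (p : ℝ) ^ 5 := by
    rw [h2] at h1
    exact h1.trans (mul_le_mul_of_nonneg_right h3 (by positivity))
  have h6 : ((p ^ 5 : ℕ) : ℝ) ≤ (Bh m coneC4 : ℝ) := by exact_mod_cast hB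
  push_cast at h6
  linarith

/-- `Bh(m, 1₁ × C₄) ≥ m ^ (5/2) / 500` for all `m ≥ 48`; so `Bh(m, 1₁ × C₄) / m²` tends to infinity
and `Bh(m, 1₁ × C₄)` is not of the order `m²`. -/
theorem result :
    (∀ m : ℕ, 48 ≤ m → (m : ℝ) ^ ((5 : ℝ) / 2) / 500 ≤ (Bh m coneC4 : ℝ)) ∧
    Tendsto (fun m : ℕ => (Bh m coneC4 : ℝ) / (m : ℝ) ^ 2) atTop atTop ∧
    ¬ ((fun m : ℕ => (Bh m coneC4 : ℝ)) =Θ[atTop] fun m : ℕ => (m : ℝ) ^ 2) := by
  have ht : Tendsto (fun m : ℕ => (Bh m coneC4 : ℝ) / (m : ℝ) ^ 2) atTop atTop := by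
    have h1 : Tendsto (fun m : ℕ => (m : ℝ) ^ ((1 : ℝ) / 2) / 500) atTop atTop := by
      apply Tendsto.atTop_div_const (by norm_num)
      exact (tendsto_rpow_atTop (by norm_num : (0 : ℝ) < 1 / 2)).comp tendsto_natCast_atTop_atTop
    refine tendsto_atTop_mono' _ ?_ h1
    filter_upwards [eventually_ge_atTop 48] with m hm
    have hm0 : (0 : ℝ) < m := by
      have : 0 < m := by omega
      exact_mod_cast this
    rw [le_div_iff₀ (by positivity)]
    refine le_trans (le_of_eq ?_) (lower m hm)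
    rw [div_mul_eq_mul_div, ← Real.rpow_natCast (m : ℝ) 2, ← Real.rpow_add hm0]
    norm_num
  refine ⟨lower, ht, fun h => ?_⟩
  obtain ⟨C, hC⟩ := h.1.bound
  have h2 := ht.eventually_gt_atTop C
  obtain ⟨m, hm1, hm2, hm3⟩ := (hC.and (h2.and (eventually_ge_atTop 1))).exists
  have hm0 : (0 : ℝ) < m := by exact_mod_cast hm3
  rw [Real.norm_of_nonneg (by positivity), Real.norm_of_nonneg (by positivity)] at hm1
  rw [lt_div_iff₀ (by positivity)] at hm2
  linarith

end Pool.Agent.Results.MP_4da166_co.ConeOverC4
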