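import Mathlib
import Pool.Agent.N382.Pierce

/-!
# Two-dimensional `k`-piercing partitions into proper boxes: `p_box(2,k) = 4(k-1)`
-/

set_option autoImplicit false

namespace Pool.Agent.Results.MP_21d1af_co.PiercingBoxes

open Finset Filter Topology

/-- `B` is a proper box of `[n]²`: `B = B₁ × B₂` with `B₁, B₂` nonempty and different from
`[n]`. -/
def IsProperBox {n : ℕ} (B : Finset (Fin n × Fin n)) : Prop :=
  ∃ B₁ B₂ : Finset (Fin n), B₁.Nonempty ∧ B₂.Nonempty ∧ B₁ ≠ univ ∧ B₂ ≠ univ ∧ B = B₁ ×ˢ B₂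

/-- `P` is a partition of `[n]²` into proper boxes. -/
def IsProperBoxPartition {n : ℕ} (P : Finset (Finset (Fin n × Fin n))) : Prop :=
  (∀ B ∈ P, IsProperBox B) ∧ ∀ c : Fin n × Fin n, ∃! B, B ∈ P ∧ c ∈ B

/-- The `k`-piercing property: every column `{i} × [n]` and every row `[n] × {j}` meets at
least `k` parts of `P`. -/
def IsPiercing {n : ℕ} (k : ℕ) (P : Finset (Finset (Fin n × Fin n))) : Prop :=
  (∀ i : Fin n, k ≤ {B ∈ P | ∃ j, (i, j) ∈ B}.card) ∧
  (∀ j : Fin n, k ≤ {B ∈ P | ∃ i, (i, j) ∈ B}.card)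

/-- `p_box(n,2,k)`: the least number of parts of a partition of `[n]²` into proper boxes that
has the `k`-piercing property. -/
noncomputable def pBox (n k : ℕ) : ℕ :=
  sInf {m | ∃ P : Finset (Finset (Fin n × Fin n)),
    IsProperBoxPartition P ∧ IsPiercing k P ∧ P.card = m}

theorem lower {n k : ℕ} (hn : 1 ≤ n) (hk : 1 ≤ k) (P : Finset (Finset (Fin n × Fin n)))
    (hP : IsProperBoxPartition P) (hpi : IsPiercing k P) : 4 * (k - 1) ≤ P.card := by
  classical
  have : NeZero n := ⟨by omega⟩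
  let S : Fin n → Finset {B // B ∈ P} := fun i => univ.filter (fun B => ∃ j, (i, j) ∈ B.1)
  let T : Fin n → Finset {B // B ∈ P} := fun j => univ.filter (fun B => ∃ i, (i, j) ∈ B.1)
  have hcS : ∀ i, (S i).card = {B ∈ P | ∃ j, (i, j) ∈ B}.card := by
    intro i
    rw [← Finset.card_map (Function.Embedding.subtype (fun B => B ∈ P)) (s := S i)]
    congr 1
    ext B
    simp only [S, Finset.mem_map, Finset.mem_filter, Finset.mem_univ, true_and,
      Function.Embedding.coe_subtype, Subtype.exists, exists_and_right, exists_eq_right]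
    tauto
  have hcT : ∀ i, (T i).card = {B ∈ P | ∃ j, (j, i) ∈ B}.card := by
    intro i
    rw [← Finset.card_map (Function.Embedding.subtype (fun B => B ∈ P)) (s := T i)]
    congr 1
    ext B
    simp only [T, Finset.mem_map, Finset.mem_filter, Finset.mem_univ, true_and,
      Function.Embedding.coe_subtype, Subtype.exists, exists_and_right, exists_eq_right]
    tauto
  obtain ⟨t, ht0, ht1, ht⟩ := N382.Pierce.main_bound S T (by
      intro x y
      obtain ⟨B, ⟨hB, hxy⟩, huniq⟩ := hP.2 (x, y)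
      rw [Finset.card_eq_one]
      refine ⟨⟨B, hB⟩, ?_⟩
      ext C
      simp only [S, T, Finset.mem_inter, Finset.mem_filter, Finset.mem_univ, true_and,
        Finset.mem_singleton]
      constructor
      · rintro ⟨⟨j, hj⟩, ⟨i, hi⟩⟩
        obtain ⟨C₁, C₂, -, -, -, -, hC⟩ := hP.1 C.1 C.2
        apply Subtype.ext
        refine huniq C.1 ⟨C.2, ?_⟩
        rw [hC] at hi hj ⊢
        exact Finset.mem_product.2 ⟨(Finset.mem_product.1 hj).1, (Finset.mem_product.1 hi).2⟩
      · rintro rfl
        exact ⟨⟨y, hxy⟩, ⟨x, hxy⟩⟩)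
    (by
      intro B
      obtain ⟨C₁, C₂, ⟨x, hx⟩, ⟨y, hy⟩, -, -, hC⟩ := hP.1 B.1 B.2
      refine ⟨x, Finset.mem_filter.2 ⟨mem_univ _, y, ?_⟩⟩
      rw [hC]; exact Finset.mem_product.2 ⟨hx, hy⟩)
    (by
      intro B
      obtain ⟨C₁, C₂, -, -, h1, -, hC⟩ := hP.1 B.1 B.2
      obtain ⟨x, hx⟩ : ∃ x, x ∉ C₁ := by
        by_contra hcon
        push Not at hcon
        exact h1 (Finset.eq_univ_iff_forall.2 hcon)
      refine ⟨x, fun h => ?_⟩
      obtain ⟨y, hy⟩ := (Finset.mem_filter.1 h).2
      rw [hC] at hy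
      exact hx (Finset.mem_product.1 hy).1)
    (by
      intro B
      obtain ⟨C₁, C₂, ⟨x, hx⟩, ⟨y, hy⟩, -, -, hC⟩ := hP.1 B.1 B.2
      refine ⟨y, Finset.mem_filter.2 ⟨mem_univ _, x, ?_⟩⟩
      rw [hC]; exact Finset.mem_product.2 ⟨hx, hy⟩)
    (by
      intro B
      obtain ⟨C₁, C₂, -, -, -, h1, hC⟩ := hP.1 B.1 B.2
      obtain ⟨y, hy⟩ : ∃ y, y ∉ C₂ := by
        by_contra hcon
        push Not at hcon
        exact h1 (Finset.eq_univ_iff_forall.2 hcon)
      refine ⟨y, fun h => ?_⟩
      obtain ⟨x, hx⟩ := (Finset.mem_filter.1 h).2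
      rw [hC] at hx
      exact hy (Finset.mem_product.1 hx).2)
    (k : ℝ) (k : ℝ)
    (fun x => by rw [hcS x]; exact_mod_cast hpi.1 x)
    (fun y => by rw [hcT y]; exact_mod_cast hpi.2 y)
  have h1 : (Fintype.card {B // B ∈ P} : ℝ) = P.card := by
    rw [Fintype.card_coe]
  rw [h1] at ht
  have h2 : t * (1 - t) ≤ 1 / 4 := by nlinarith [sq_nonneg (t - 1 / 2)]
  have h3 : t * (1 - t) * (P.card : ℝ) ≤ 1 / 4 * P.card :=
    mul_le_mul_of_nonneg_right h2 (Nat.cast_nonneg _)
  have h4 : (k : ℝ) - 1 ≤ 1 / 4 * P.card := by linarith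
  have h5 : ((4 * (k - 1) : ℕ) : ℝ) ≤ P.card := by
    push_cast [Nat.cast_sub hk]
    linarith
  exact_mod_cast h5

section construction

/-- Whether a coordinate is among the first `h`. -/
def low {n : ℕ} (h : ℕ) (x : Fin n) : Bool := decide (x.val < h)

/-- The strip index of a coordinate. -/
def idx {n h : ℕ} (hh : 0 < h) (x : Fin n) : Fin h :=
  if hx : x.val < h then ⟨x.val, hx⟩ else ⟨min (x.val - h) (h - 1), by omega⟩

theorem low_idx_surj {n h : ℕ} (hh : 0 < h) (hn : 2 * h ≤ n) (a : Bool) (i : Fin h) :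
    ∃ x : Fin n, low h x = a ∧ idx hh x = i := by
  cases a
  · refine ⟨⟨h + i.val, by omega⟩, ?_, ?_⟩
    · simp [low]
    · apply Fin.ext
      simp only [idx]
      rw [dif_neg (by omega)]
      simp only [Nat.add_sub_cancel_left]
      omega
  · refine ⟨⟨i.val, by omega⟩, ?_, ?_⟩
    · simp [low]
    · apply Fin.ext
      simp only [idx]
      rw [dif_pos i.2]

/-- The label of the part containing a cell. -/
def cls {n h : ℕ} (hh : 0 < h) (c : Fin n × Fin n) : Bool × Bool × Fin h :=
  (low h c.1, low h c.2, if low h c.1 = low h c.2 then idx hh c.1 else idx hh c.2)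

/-- The part with a given label. -/
def part {n h : ℕ} (hh : 0 < h) (l : Bool × Bool × Fin h) : Finset (Fin n × Fin n) :=
  univ.filter (fun c => cls hh c = l)

theorem cls_surj {n h : ℕ} (hh : 0 < h) (hn : 2 * h ≤ n) (l : Bool × Bool × Fin h) :
    ∃ c : Fin n × Fin n, cls hh c = l := by
  obtain ⟨a, b, i⟩ := l
  obtain ⟨x, hx1, hx2⟩ := low_idx_surj hh hn a i
  obtain ⟨y, hy1, hy2⟩ := low_idx_surj hh hn b i
  refine ⟨(x, y), ?_⟩
  simp only [cls, hx1, hy1, hx2, hy2, ite_self]

theorem part_inj {n h : ℕ} (hh : 0 < h) (hn : 2 * h ≤ n) :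
    Function.Injective (part (n := n) hh) := by
  intro l l' hl
  obtain ⟨c, hc⟩ := cls_surj hh hn l
  have h1 : c ∈ part hh l := Finset.mem_filter.2 ⟨mem_univ _, hc⟩
  rw [hl] at h1
  rw [← hc, (Finset.mem_filter.1 h1).2]

theorem upper {n h : ℕ} (hh : 0 < h) (hn : 2 * h ≤ n) :
    ∃ P : Finset (Finset (Fin n × Fin n)),
      IsProperBoxPartition P ∧ IsPiercing (h + 1) P ∧ P.card = 4 * h := by
  classical
  refine ⟨univ.image (part hh), ⟨?_, ?_⟩, ⟨?_, ?_⟩, ?_⟩
  · intro B hB
    obtain ⟨⟨a, b, i⟩, -, rfl⟩ := Finset.mem_image.1 hB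
    obtain ⟨x1, hx1, hx1'⟩ := low_idx_surj (n := n) hh hn a i
    obtain ⟨y1, hy1, hy1'⟩ := low_idx_surj (n := n) hh hn b i
    obtain ⟨x2, hx2, -⟩ := low_idx_surj (n := n) hh hn (!a) i
    obtain ⟨y2, hy2, -⟩ := low_idx_surj (n := n) hh hn (!b) i
    by_cases hab : a = b
    · refine ⟨univ.filter (fun x => low h x = a ∧ idx hh x = i),
        univ.filter (fun y => low h y = b), ⟨x1, by simp [hx1, hx1']⟩, ⟨y1, by simp [hy1]⟩,
        ?_, ?_, ?_⟩
      · intro h1
        have h2 : x2 ∈ univ.filter (fun x => low h x = a ∧ idx hh x = i) := by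
          rw [h1]; exact mem_univ _
        have h3 := (Finset.mem_filter.1 h2).2.1
        rw [hx2] at h3
        cases a <;> simp at h3
      · intro h1
        have h2 : y2 ∈ univ.filter (fun y => low h y = b) := by
          rw [h1]; exact mem_univ _
        have h3 := (Finset.mem_filter.1 h2).2
        rw [hy2] at h3
        cases b <;> simp at h3
      · ext ⟨x, y⟩
        simp only [part, cls, Finset.mem_filter, Finset.mem_univ, true_and, Finset.mem_product,
          Prod.mk.injEq]
        constructor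
        · rintro ⟨h1, h2, h3⟩
          rw [h1, h2, if_pos hab] at h3
          exact ⟨⟨h1, h3⟩, h2⟩
        · rintro ⟨⟨h1, h3⟩, h2⟩
          refine ⟨h1, h2, ?_⟩
          rw [h1, h2, if_pos hab]
          exact h3
    · refine ⟨univ.filter (fun x => low h x = a),
        univ.filter (fun y => low h y = b ∧ idx hh y = i), ⟨x1, by simp [hx1]⟩,
        ⟨y1, by simp [hy1, hy1']⟩, ?_, ?_, ?_⟩
      · intro h1
        have h2 : x2 ∈ univ.filter (fun x => low h x = a) := by
          rw [h1]; exact mem_univ _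
        have h3 := (Finset.mem_filter.1 h2).2
        rw [hx2] at h3
        cases a <;> simp at h3
      · intro h1
        have h2 : y2 ∈ univ.filter (fun y => low h y = b ∧ idx hh y = i) := by
          rw [h1]; exact mem_univ _
        have h3 := (Finset.mem_filter.1 h2).2.1
        rw [hy2] at h3
        cases b <;> simp at h3
      · ext ⟨x, y⟩
        simp only [part, cls, Finset.mem_filter, Finset.mem_univ, true_and, Finset.mem_product,
          Prod.mk.injEq]
        constructor
        · rintro ⟨h1, h2, h3⟩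
          rw [h1, h2, if_neg hab] at h3
          exact ⟨h1, h2, h3⟩
        · rintro ⟨h1, h2, h3⟩
          refine ⟨h1, h2, ?_⟩
          rw [h1, h2, if_neg hab]
          exact h3
  · intro c
    refine ⟨part hh (cls hh c), ⟨Finset.mem_image_of_mem _ (mem_univ _),
      Finset.mem_filter.2 ⟨mem_univ _, rfl⟩⟩, ?_⟩
    rintro B ⟨hB, hc⟩
    obtain ⟨l, -, rfl⟩ := Finset.mem_image.1 hB
    rw [(Finset.mem_filter.1 hc).2]
  · intro x
    have h1 : (univ.image (fun i : Option (Fin h) => part (n := n) hh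
        (i.elim (low h x, low h x, idx hh x) (fun i => (low h x, !low h x, i))))).card
        = h + 1 := by
      rw [Finset.card_image_of_injective]
      · simp
      · intro i j hij
        have := part_inj hh hn hij
        cases i <;> cases j <;> simp at this ⊢
        exact this
    rw [← h1]
    apply Finset.card_le_card
    intro B hB
    obtain ⟨i, -, rfl⟩ := Finset.mem_image.1 hB
    refine Finset.mem_filter.2 ⟨Finset.mem_image_of_mem _ (mem_univ _), ?_⟩
    cases i with
    | none => exact ⟨x, Finset.mem_filter.2 ⟨mem_univ _, by simp [cls]⟩⟩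
    | some i =>
      obtain ⟨y, hy1, hy2⟩ := low_idx_surj (n := n) hh hn (!low h x) i
      exact ⟨y, Finset.mem_filter.2 ⟨mem_univ _, by simp [cls, hy1, hy2]⟩⟩
  · intro y
    have h1 : (univ.image (fun i : Option (Fin h) => part (n := n) hh
        (i.elim (!low h y, low h y, idx hh y) (fun i => (low h y, low h y, i))))).card
        = h + 1 := by
      rw [Finset.card_image_of_injective]
      · simp
      · intro i j hij
        have := part_inj hh hn hij
        cases i <;> cases j <;> simp at this ⊢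
        exact this
    rw [← h1]
    apply Finset.card_le_card
    intro B hB
    obtain ⟨i, -, rfl⟩ := Finset.mem_image.1 hB
    refine Finset.mem_filter.2 ⟨Finset.mem_image_of_mem _ (mem_univ _), ?_⟩
    cases i with
    | none =>
      obtain ⟨x, hx1, hx2⟩ := low_idx_surj (n := n) hh hn (!low h y) (idx hh y)
      exact ⟨x, Finset.mem_filter.2 ⟨mem_univ _, by simp [cls, hx1]⟩⟩
    | some i =>
      obtain ⟨x, hx1, hx2⟩ := low_idx_surj (n := n) hh hn (low h y) i
      exact ⟨x, Finset.mem_filter.2 ⟨mem_univ _, by simp [cls, hx1, hx2]⟩⟩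
  · rw [Finset.card_image_of_injective _ (part_inj hh hn)]
    simp only [Finset.card_univ, Fintype.card_prod, Fintype.card_bool, Fintype.card_fin]
    ring

end construction

/-- For every `k ≥ 2` (in particular for every `k ≥ 3`): every partition of `[n]²` into proper
boxes with the `k`-piercing property has at least `4(k-1)` parts, for `n ≥ 2(k-1)` the least
number of parts is exactly `4(k-1)`, and hence `p_box(2,k) = lim_n p_box(n,2,k) = 4(k-1)`. -/
theorem result : ∀ k : ℕ, 2 ≤ k →
    (∀ n : ℕ, 1 ≤ n → ∀ P : Finset (Finset (Fin n × Fin n)),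
      IsProperBoxPartition P → IsPiercing k P → 4 * (k - 1) ≤ P.card) ∧
    (∀ n : ℕ, 2 * (k - 1) ≤ n → ∃ P : Finset (Finset (Fin n × Fin n)),
      IsProperBoxPartition P ∧ IsPiercing k P ∧ P.card = 4 * (k - 1)) ∧
    (∀ n : ℕ, 2 * (k - 1) ≤ n → pBox n k = 4 * (k - 1)) ∧
    Tendsto (fun n => pBox n k) atTop (𝓝 (4 * (k - 1))) := by
  intro k hk
  have hup : ∀ n : ℕ, 2 * (k - 1) ≤ n → ∃ P : Finset (Finset (Fin n × Fin n)),
      IsProperBoxPartition P ∧ IsPiercing k P ∧ P.card = 4 * (k - 1) := by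
    intro n hn
    have := upper (n := n) (h := k - 1) (by omega) hn
    rwa [Nat.sub_add_cancel (by omega : 1 ≤ k)] at this
  have heq : ∀ n : ℕ, 2 * (k - 1) ≤ n → pBox n k = 4 * (k - 1) := by
    intro n hn
    apply le_antisymm
    · exact Nat.sInf_le (hup n hn)
    · obtain ⟨P, h1, h2, h3⟩ := Nat.sInf_mem (⟨_, hup n hn⟩ : {m | ∃ P : Finset (Finset (Fin n × Fin n)),
        IsProperBoxPartition P ∧ IsPiercing k P ∧ P.card = m}.Nonempty)
      have h4 := lower (by omega) (by omega) P h1 h2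
      rw [h3] at h4
      exact h4
  refine ⟨fun n hn P h1 h2 => lower hn (by omega) P h1 h2, hup, heq, ?_⟩
  apply tendsto_const_nhds.congr'
  filter_upwards [Filter.eventually_ge_atTop (2 * (k - 1))] with n hn
  exact (heq n hn).symm

end Pool.Agent.Results.MP_21d1af_co.PiercingBoxes
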